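import Mathlib
import Pool.Agent.W635.KurMA

/-!
# MP_47bc22_lc: it is consistent with ZFC that the class of Kurepa trees is nonempty and `Δ¹₂`

The starting result `KurepaCoanalytic` assumes Martin's axiom for `ℵ₁` dense sets and a Kurepa
tree. Here nothing is assumed:

1. over an arbitrary ground model, forcing with countable conditions adds a Kurepa family on `ω₁`
   and preserves `ω₁`;
2. over an arbitrary ground model with a Kurepa family on `ω₁`, some forcing notion preserves all
   cardinals, forces Martin's axiom for `ℵ₁` dense sets, and forces that there is a Kurepa family;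
3. Martin's axiom for `ℵ₁` dense sets and a Kurepa family imply that the set `𝒦` of the codes of
   regular Kurepa trees on `ω₁` is nonempty and `Π¹₁`, in particular `Δ¹₂`.

So a two step forcing extension of any ground model satisfies: `𝒦` is nonempty and `Δ¹₂`.
The forcing language is the one of `Pool.Agent.Helper669.Forcing`: a sentence is the set of the
conditions which force it. `KurepaN P W I` is the translation of `there is a Kurepa family on W
indexed by I`, and `MartinHolds P X` is the translation of `MartinFor X`.
-/

set_option autoImplicit false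

namespace Pool.Agent.Results.MP_47bc22_lc.ForcedDelta12

open Cardinal Pool.Agent.Helper669.Forcing Pool.Agent.W684.FM Pool.Agent.W635.Kur
  Pool.Agent.H995R3.Kurepa

/-- (1) There is a notion of forcing all of whose conditions force that `ω₁` is preserved and that
there is a Kurepa family on `ω₁`. (2) If there is a Kurepa family on `ω₁`, then there is a notion
of forcing all of whose conditions force that all cardinals (and `ω₁`) are preserved, that Martin's
axiom for `ℵ₁` dense sets holds, and that there is a Kurepa family on `ω₁`. (3) If Martin's axiom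
for `ℵ₁` dense sets holds and there is a Kurepa family on `ω₁`, then the set `𝒦` of the codes of
regular Kurepa trees on `ω₁` is nonempty, and it is `Π¹₁` and `Δ¹₂`. -/
theorem result :
    (∃ (P : Type) (_ : Preorder P) (I : Type), Nonempty P ∧ ∀ p : P,
      p ∈ OmegaOnePreserved P ∧ p ∈ KurepaN P Om1 I) ∧
    (∀ (I : Type) (b : I → Om1 → ℕ), KurepaFamily Om1 I b →
      ∃ (P : Type) (_ : Preorder P), Nonempty P ∧ ∀ p : P,
        p ∈ CardinalsPreserved.{0, 0} P ∧ p ∈ OmegaOnePreserved P ∧ p ∈ MartinHolds P Om1 ∧
          p ∈ KurepaN P Om1 I) ∧
    (MartinFor Om1 → (∃ (I : Type) (b : I → Om1 → ℕ), KurepaFamily Om1 I b) →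
      ∀ (e : Om × Om ≃ Om) (zero one : Om), zero ≠ one →
        (kurepaCodes e zero one).Nonempty ∧ IsPi11 Om (kurepaCodes e zero one) ∧
          IsDelta12 Om (kurepaCodes e zero one)) := by
  refine ⟨exists_kurepa_forcing, fun I b hb => ?_, fun hMA h e zero one h01 =>
    coanalytic hMA h e zero one h01⟩
  have : Infinite Om1 := by
    rw [Cardinal.infinite_iff, mk_ord_toType]
    exact aleph0_le_aleph 1
  obtain ⟨P, hP, hne, h⟩ := exists_forcing Om1
  exact ⟨P, hP, hne, fun p => ⟨(h p).1, (h p).2.1, (h p).2.2, kurepaN_of_preserved hb (h p).1⟩⟩

end Pool.Agent.Results.MP_47bc22_lc.ForcedDelta12
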